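import Pool.Agent.Lib.MP_8e6c5e_nt.Free

/-! The six numbers `n ± 1`, `p_n ± n`, `n p_n ± 1` are often all free of small prime factors and
of `k`-th prime powers. Here `p_n = Nat.nth Nat.Prime (n - 1)`. -/

namespace Pool.Agent.Results.MP_8e6c5e_nt.RoughPowerFree

open Pool.Agent.Lib.MP_8e6c5e_nt

theorem result : ∃ C : ℝ, ∀ z k N : ℕ, 1 ≤ z → 120 ≤ k →
    (N : ℝ) / (primorial z : ℝ) - C * (N : ℝ) * ((z : ℝ) + 1) ^ (1 - (k : ℝ) / 60) - 2 ≤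
      (Set.ncard {n : ℕ | 2 ≤ n ∧ n ≤ N ∧
        ∀ m ∈ ({n - 1, n + 1, Nat.nth Nat.Prime (n - 1) - n, Nat.nth Nat.Prime (n - 1) + n,
          n * Nat.nth Nat.Prime (n - 1) - 1, n * Nat.nth Nat.Prime (n - 1) + 1} : Finset ℕ),
          ∀ l : ℕ, l.Prime → l ∣ m → z < l ∧ ¬ l ^ k ∣ m} : ℝ) := by
  classical
  obtain ⟨C, h⟩ := free
  refine ⟨C, fun z k N hz hk => ?_⟩
  have h1 := h z k N ((Finset.Icc 2 N).filter fun n =>
    ∀ m ∈ six n, ∀ l : ℕ, l.Prime → l ∣ m → z < l ∧ ¬ l ^ k ∣ m) hz hk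
    (fun n h1 h2 => Finset.mem_filter.2 ⟨h1, h2⟩)
  refine h1.trans (le_of_eq ?_)
  rw [← Set.ncard_coe_finset]
  congr 2
  ext n
  simp only [Finset.coe_filter, Finset.mem_Icc, Set.mem_ofPred_eq, and_assoc]
  rfl

end Pool.Agent.Results.MP_8e6c5e_nt.RoughPowerFree
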